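import Pool.Agent.H55.GW.Targets1

/-!
# Menger's theorem for finite directed graphs (module MEN)

Goering's proof, by induction on the number of arcs.
-/

set_option autoImplicit false

namespace Pool.Agent.H53.GW

open Pool.Agent.H55.GW

variable {W : Type} {D : W → W → Prop}

/-- arcs leaving the end of a walk are not needed -/
theorem cut_out {S : Set W} {x z : W} (h : RIn D S x z) :
    RIn (fun u v => D u v ∧ u ≠ z) S x z := by
  obtain ⟨h1, h2⟩ := h
  induction h2 using Relation.ReflTransGen.head_induction_on with
  | refl => exact RIn.refl h1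
  | @head a b h3 h4 ih =>
    by_cases ha : a = z
    · subst ha
      exact RIn.refl h1
    · exact RIn.head (D := fun u v => D u v ∧ u ≠ z) ⟨h3.1, ha⟩ h1 (ih h3.2)

/-- the vertices of a walk are reached from its start -/
theorem tight {S : Set W} {x z : W} (h : RIn D S x z) : RIn D {v | RIn D S x v} x z := by
  obtain ⟨h1, h2⟩ := h
  induction h2 with
  | refl => exact RIn.refl (RIn.refl h1)
  | @tail b c h3 h4 ih => exact ih.tail h4.1 (RIn.tail ⟨h1, h3⟩ h4.1 h4.2)

/-- first vertex in `T`, with a tight set of vertices -/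
theorem first' {S T : Set W} {x y : W} (h : RIn D S x y) (hy : y ∈ T) :
    ∃ z ∈ T, z ∈ S ∧ RIn D ({v | RIn D (S \ T) x v} ∪ {z}) x z := by
  obtain ⟨z, hz, h1, h2⟩ := h.first hy
  refine ⟨z, hz, h2.left_mem, ?_⟩
  have h3 := tight (cut_out h1)
  refine (h3.mono (D' := D) (fun u v huv _ _ => huv.1) ?_)
  intro v hv
  by_cases hvz : v = z
  · exact Or.inr hvz
  · left
    have h4 : RIn (fun u v => D u v ∧ u ≠ z) ((S \ T) ∪ {z}) x v := hv
    -- no vertex of the walk is z
    have h5 : ∀ w, RIn (fun u v => D u v ∧ u ≠ z) ((S \ T) ∪ {z}) x w → w = z ∨ RIn D (S \ T) x w := by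
      intro w hw
      obtain ⟨g1, g2⟩ := hw
      induction g2 with
      | refl =>
        rcases g1 with g1 | g1
        · exact Or.inr (RIn.refl g1)
        · exact Or.inl g1
      | @tail b c g3 g4 ih =>
        rcases ih with ih | ih
        · exact absurd ih g4.1.2
        · rcases g4.2 with g5 | g5
          · exact Or.inr (ih.tail g4.1.1 g5)
          · exact Or.inl g5
    exact (h5 v h4).resolve_left hvz

/-- the relation without the arc `(a, b)` -/
def del (D : W → W → Prop) (a b : W) : W → W → Prop := fun u v => D u v ∧ ¬ (u = a ∧ v = b)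

theorem aux1 {a b : W} {P X Y T : Set W} (ha : a ∈ P) (hP : Sep D P X Y)
    (hT : Sep (del D a b) T X P) : Sep D T X Y := by
  intro x hx y hy hr
  rcases hr.avoid_or P with h | ⟨z, hz, h1, h2⟩
  · exact hP x hx y hy (h.mono_set fun v hv => hv.2)
  · refine hT x hx z hz ?_
    have h3 := cut_out h1
    refine h3.mono (D' := del D a b) ?_ ?_
    · rintro u v ⟨huv, huz⟩ hu hv
      refine ⟨huv, ?_⟩
      rintro ⟨rfl, -⟩
      rcases hu with hu | hu
      · exact hu.2 ha
      · exact huz hu
    · rintro v (hv | hv)
      · exact hv.1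
      · rw [hv]
        exact h2.left_mem

theorem del_rev {a b : W} : del (fun u v => D v u) b a = fun u v => del D a b v u := by
  funext u v
  simp only [del, eq_iff_iff]
  constructor
  · rintro ⟨h1, h2⟩
    exact ⟨h1, fun h => h2 ⟨h.2, h.1⟩⟩
  · rintro ⟨h1, h2⟩
    exact ⟨h1, fun h => h2 ⟨h.2, h.1⟩⟩

theorem aux2 {a b : W} {Q X Y T : Set W} (hb : b ∈ Q) (hQ : Sep D Q X Y)
    (hT : Sep (del D a b) T Q Y) : Sep D T X Y := by
  have h1 : Sep (fun u v => D v u) Q Y X := sep_rev.2 hQ
  have h2 : Sep (del (fun u v => D v u) b a) T Y Q := by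
    rw [del_rev]
    exact sep_rev.2 hT
  exact sep_rev.1 (aux1 hb h1 h2)

/-- trimmed linkage to `P` -/
theorem trim {n : ℕ} {X P : Set W} (h : Lnk D n X P) :
    ∃ (x z : Fin n → W) (A : Fin n → Set W),
      (∀ i, x i ∈ X ∧ z i ∈ P ∧ RIn D (A i) (x i) (z i) ∧
        (∀ v ∈ A i, v = z i ∨ RIn D Pᶜ (x i) v)) ∧
      ∀ i j, i ≠ j → Disjoint (A i) (A j) := by
  obtain ⟨x, y, S, h1, h2⟩ := h
  have h3 : ∀ i, ∃ z ∈ P, z ∈ S i ∧ RIn D ({v | RIn D (S i \ P) (x i) v} ∪ {z}) (x i) z :=
    fun i => first' (h1 i).2.2 (h1 i).2.1
  choose z hz1 hz2 hz3 using h3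
  refine ⟨x, z, fun i => {v | RIn D (S i \ P) (x i) v} ∪ {z i}, ?_, ?_⟩
  · intro i
    refine ⟨(h1 i).1, hz1 i, hz3 i, ?_⟩
    rintro v (hv | hv)
    · exact Or.inr (RIn.mono_set hv fun w hw => hw.2)
    · exact Or.inl hv
  · intro i j hij
    have hsub : ∀ k, ({v | RIn D (S k \ P) (x k) v} ∪ {z k} : Set W) ⊆ S k := by
      rintro k v (hv | hv)
      · exact (RIn.right_mem hv).1
      · rw [hv]
        exact hz2 k
    exact (h2 i j hij).mono (hsub i) (hsub j)

theorem trim' {n : ℕ} {Q Y : Set W} (h : Lnk D n Q Y) :
    ∃ (w y : Fin n → W) (B : Fin n → Set W),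
      (∀ i, w i ∈ Q ∧ y i ∈ Y ∧ RIn D (B i) (w i) (y i) ∧
        (∀ v ∈ B i, v = w i ∨ RIn D Qᶜ v (y i))) ∧
      ∀ i j, i ≠ j → Disjoint (B i) (B j) := by
  obtain ⟨y, w, B, h1, h2⟩ := trim (lnk_rev.2 h)
  refine ⟨w, y, B, fun i => ⟨(h1 i).2.1, (h1 i).1, rIn_rev.1 (h1 i).2.2.1, fun v hv => ?_⟩, h2⟩
  rcases (h1 i).2.2.2 v hv with h | h
  · exact Or.inl h
  · exact Or.inr (rIn_rev.1 h)

/-- gluing the two linkages -/
theorem glue [DecidableEq W] {n : ℕ} {a b : W} {S : Finset W} {X Y : Set W} (hab : D a b)
    (haS : a ∉ S) (hbS : b ∉ S) (hS : Sep (del D a b) (S : Set W) X Y)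
    (hQ : (insert b S).card = n)
    (h1 : Lnk (del D a b) n X ((insert a S : Finset W) : Set W))
    (h2 : Lnk (del D a b) n ((insert b S : Finset W) : Set W) Y) : Lnk D n X Y := by
  obtain ⟨x, z, A, hA, hAd⟩ := trim h1
  obtain ⟨w, y, B, hB, hBd⟩ := trim' h2
  have hzi : Function.Injective z := by
    intro i j hij
    by_contra hne
    exact Set.disjoint_left.1 (hAd i j hne) (hA i).2.2.1.right_mem (hij ▸ (hA j).2.2.1.right_mem)
  have hwi : Function.Injective w := by
    intro i j hij
    by_contra hne
    exact Set.disjoint_left.1 (hBd i j hne) (hB i).2.2.1.left_mem (hij ▸ (hB j).2.2.1.left_mem)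
  have hws : Finset.univ.image w = insert b S := by
    apply Finset.eq_of_subset_of_card_le
    · intro v hv
      obtain ⟨i, -, rfl⟩ := Finset.mem_image.1 hv
      exact_mod_cast (hB i).1
    · rw [hQ, Finset.card_image_of_injective _ hwi]
      simp
  let φ : W → W := fun p => if p = a then b else p
  have hφ : ∀ i, φ (z i) ∈ insert b S := by
    intro i
    have hz : z i ∈ insert a S := by exact_mod_cast (hA i).2.1
    simp only [φ]
    split_ifs with h
    · exact Finset.mem_insert_self _ _
    · exact Finset.mem_insert_of_mem ((Finset.mem_insert.1 hz).resolve_left h)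
  have hj : ∀ i, ∃ j, w j = φ (z i) := by
    intro i
    have h := hφ i
    rw [← hws] at h
    obtain ⟨j, -, hj⟩ := Finset.mem_image.1 h
    exact ⟨j, hj⟩
  choose j hj using hj
  have hzS : ∀ i, z i = a ∨ z i ∈ S := by
    intro i
    have hz : z i ∈ insert a S := by exact_mod_cast (hA i).2.1
    exact Finset.mem_insert.1 hz
  have hφi : ∀ i i', φ (z i) = φ (z i') → z i = z i' := by
    intro i i' h
    simp only [φ] at h
    split_ifs at h with h3 h4 h4
    · rw [h3, h4]
    · exact absurd (h ▸ (hzS i').resolve_left h4) hbS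
    · exact absurd (h ▸ (hzS i).resolve_left h3) hbS
    · exact h
  have hji : Function.Injective j := by
    intro i i' h
    apply hzi
    apply hφi
    rw [← hj i, ← hj i', h]
  -- common vertices
  have hcom : ∀ i k v, v ∈ A i → v ∈ B k → v = z i ∧ v = w k ∧ v ∈ S := by
    intro i k v hv hv'
    have hvS : v ∈ S := by
      by_contra hvS
      have g1 : RIn (del D a b) (S : Set W)ᶜ (x i) v := by
        rcases (hA i).2.2.2 v hv with h | h
        · rw [h]
          have hza : z i = a := by
            rcases hzS i with h' | h'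
            · exact h'
            · exact absurd (h ▸ h') hvS
          refine (hA i).2.2.1.mono_set ?_
          intro u hu hus
          rcases (hA i).2.2.2 u hu with h' | h'
          · rw [h', hza] at hus
            exact haS (by exact_mod_cast hus)
          · exact h'.right_mem (by
              have : u ∈ S := by exact_mod_cast hus
              exact_mod_cast Finset.mem_insert_of_mem this)
        · exact h.mono_set (Set.compl_subset_compl.2 (by
            intro u hu
            have : u ∈ S := by exact_mod_cast hu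
            exact_mod_cast Finset.mem_insert_of_mem this))
      have g2 : RIn (del D a b) (S : Set W)ᶜ v (y k) := by
        rcases (hB k).2.2.2 v hv' with h | h
        · rw [h]
          have hwb : w k = b := by
            have hw : w k ∈ insert b S := by exact_mod_cast (hB k).1
            rcases Finset.mem_insert.1 hw with h' | h'
            · exact h'
            · exact absurd (h ▸ h') hvS
          refine (hB k).2.2.1.mono_set ?_
          intro u hu hus
          rcases (hB k).2.2.2 u hu with h' | h'
          · rw [h', hwb] at hus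
            exact hbS (by exact_mod_cast hus)
          · exact h'.left_mem (by
              have : u ∈ S := by exact_mod_cast hus
              exact_mod_cast Finset.mem_insert_of_mem this)
        · exact h.mono_set (Set.compl_subset_compl.2 (by
            intro u hu
            have : u ∈ S := by exact_mod_cast hu
            exact_mod_cast Finset.mem_insert_of_mem this))
      exact hS _ (hA i).1 _ (hB k).2.1 (g1.trans g2)
    refine ⟨?_, ?_, hvS⟩
    · rcases (hA i).2.2.2 v hv with h | h
      · exact h
      · exact absurd (by exact_mod_cast Finset.mem_insert_of_mem hvS) h.right_mem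
    · rcases (hB k).2.2.2 v hv' with h | h
      · exact h
      · exact absurd (by exact_mod_cast Finset.mem_insert_of_mem hvS) h.left_mem
  refine ⟨x, fun i => y (j i), fun i => A i ∪ B (j i), ?_, ?_⟩
  · intro i
    refine ⟨(hA i).1, (hB (j i)).2.1, ?_⟩
    have g1 : RIn D (A i ∪ B (j i)) (x i) (z i) :=
      (hA i).2.2.1.mono (fun u v h _ _ => h.1) Set.subset_union_left
    have g2 : RIn D (A i ∪ B (j i)) (w (j i)) (y (j i)) :=
      (hB (j i)).2.2.1.mono (fun u v h _ _ => h.1) Set.subset_union_right
    have g3 := hj i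
    simp only [φ] at g3
    split_ifs at g3 with h
    · rw [h] at g1
      rw [g3] at g2
      exact (g1.tail hab g2.left_mem).trans g2
    · rw [g3] at g2
      exact g1.trans g2
  · intro i i' hne
    rw [Set.disjoint_left]
    rintro v (hv | hv) (hv' | hv')
    · exact Set.disjoint_left.1 (hAd i i' hne) hv hv'
    · obtain ⟨e1, e2, e3⟩ := hcom i (j i') v hv hv'
      have hza : z i ≠ a := fun h => haS (by rw [← h, ← e1]; exact e3)
      have : φ (z i) = φ (z i') := by
        rw [← hj i', ← e2, e1]
        simp only [φ, if_neg hza]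
      exact hne (hzi (hφi i i' this))
    · obtain ⟨e1, e2, e3⟩ := hcom i' (j i) v hv' hv
      have hza : z i' ≠ a := fun h => haS (by rw [← h, ← e1]; exact e3)
      have : φ (z i') = φ (z i) := by
        rw [← hj i, ← e2, e1]
        simp only [φ, if_neg hza]
      exact hne (hzi (hφi i' i this)).symm
    · exact Set.disjoint_left.1 (hBd (j i) (j i') fun h => hne (hji h)) hv hv'

theorem menger_aux : ∀ (k : ℕ) (D : W → W → Prop), {p : W × W | D p.1 p.2}.Finite →
    {p : W × W | D p.1 p.2}.ncard = k → ∀ (X Y : Set W) (n : ℕ),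
    (∀ S : Finset W, Sep D (S : Set W) X Y → n ≤ S.card) → Lnk D n X Y := by
  classical
  intro k
  induction k with
  | zero =>
    intro D hfin hk X Y n hn
    have hno : ∀ u v, ¬ D u v := by
      intro u v huv
      have : {p : W × W | D p.1 p.2} = ∅ := (Set.ncard_eq_zero hfin).1 hk
      have h2 : ((u, v) : W × W) ∈ {p : W × W | D p.1 p.2} := huv
      rw [this] at h2
      exact h2
    have hex : ∃ F : Finset W, (F : Set W) ⊆ X ∩ Y ∧ F.card = n := by
      by_cases hf : (X ∩ Y).Finite
      · have h1 : n ≤ hf.toFinset.card := by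
          apply hn
          intro x hx y hy hr
          rcases hr.cases_head with h | ⟨z, h, -⟩
          · subst h
            exact hr.left_mem (by simpa using ⟨hx, hy⟩)
          · exact hno _ _ h
        obtain ⟨F, hF1, hF2⟩ := Finset.exists_subset_card_eq h1
        refine ⟨F, ?_, hF2⟩
        intro v hv
        have := hF1 (by exact_mod_cast hv : v ∈ F)
        simpa using this
      · obtain ⟨F, hF1, hF2⟩ := Set.Infinite.exists_subset_card_eq hf n
        exact ⟨F, hF1, hF2⟩
    obtain ⟨F, hF1, hF2⟩ := hex
    let e := F.equivFinOfCardEq hF2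
    refine ⟨fun i => (e.symm i : W), fun i => (e.symm i : W), fun i => {(e.symm i : W)}, ?_, ?_⟩
    · intro i
      have := hF1 (by exact_mod_cast (e.symm i).2 : (e.symm i : W) ∈ (F : Set W))
      exact ⟨this.1, this.2, RIn.refl rfl⟩
    · intro i j hij
      rw [Set.disjoint_singleton]
      intro h
      exact hij (e.symm.injective (Subtype.ext h))
  | succ k ih =>
    intro D hfin hk X Y n hn
    have hne : {p : W × W | D p.1 p.2}.Nonempty := by
      rw [← Set.ncard_pos hfin]
      omega
    obtain ⟨⟨a, b⟩, hab⟩ := hne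
    replace hab : D a b := hab
    have hset : {p : W × W | del D a b p.1 p.2} = {p : W × W | D p.1 p.2} \ {(a, b)} := by
      ext ⟨u, v⟩
      simp [del]
    have hfin' : {p : W × W | del D a b p.1 p.2}.Finite := by
      rw [hset]
      exact hfin.subset Set.sdiff_subset
    have hk' : {p : W × W | del D a b p.1 p.2}.ncard = k := by
      rw [hset, Set.ncard_sdiff_singleton_of_mem (show ((a, b) : W × W) ∈ {p : W × W | D p.1 p.2}
        from hab), hk]
      omega
    by_cases hall : ∀ S : Finset W, Sep (del D a b) (S : Set W) X Y → n ≤ S.card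
    · exact (ih (del D a b) hfin' hk' X Y n hall).mono_rel fun u v h => h.1
    · push Not at hall
      obtain ⟨S, hS, hSn⟩ := hall
      have hP : Sep D ((insert a S : Finset W) : Set W) X Y := by
        intro x hx y hy hr
        refine hS x hx y hy (hr.mono (D' := del D a b) ?_ ?_)
        · intro u v huv hu hv
          refine ⟨huv, fun h => hu ?_⟩
          rw [h.1]
          simp
        · apply Set.compl_subset_compl.2
          intro v hv
          simp only [Finset.coe_insert]
          exact Or.inr hv
      have hQ : Sep D ((insert b S : Finset W) : Set W) X Y := by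
        intro x hx y hy hr
        refine hS x hx y hy (hr.mono (D' := del D a b) ?_ ?_)
        · intro u v huv hu hv
          refine ⟨huv, fun h => hv ?_⟩
          rw [h.2]
          simp
        · apply Set.compl_subset_compl.2
          intro v hv
          simp only [Finset.coe_insert]
          exact Or.inr hv
      have hP1 := hn _ hP
      have hQ1 := hn _ hQ
      have haS : a ∉ S := by
        intro h
        rw [Finset.insert_eq_of_mem h] at hP1
        omega
      have hbS : b ∉ S := by
        intro h
        rw [Finset.insert_eq_of_mem h] at hQ1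
        omega
      have hQc : (insert b S).card = n := by
        rw [Finset.card_insert_of_notMem hbS] at hQ1 ⊢
        omega
      refine glue hab haS hbS hS hQc ?_ ?_
      · refine ih (del D a b) hfin' hk' X _ n ?_
        intro T hT
        exact hn T (aux1 (by simp) hP hT)
      · refine ih (del D a b) hfin' hk' _ Y n ?_
        intro T hT
        exact hn T (aux2 (by simp) hQ hT)

theorem men : T_MEN := by
  intro W D U hU hD X Y _ _ n hn
  refine menger_aux _ D ?_ rfl X Y n hn
  refine (hU.prod hU).subset ?_
  rintro ⟨u, v⟩ huv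
  exact hD u v huv

end Pool.Agent.H53.GW
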